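import Mathlib

namespace Pool.Agent.Results.MP_9bf48e_al.NotClosed

noncomputable abbrev K := algebraicClosure ℚ ℂ

noncomputable def L (a b : ℤ) : Submodule ℤ K where
  carrier := {z | ∃ x y : ℤ, (z : ℂ) = a * x + b * y * Complex.I}
  add_mem' := by
    rintro z w ⟨x, y, h⟩ ⟨x', y', h'⟩
    exact ⟨x + x', y + y', by push_cast; rw [h, h']; ring⟩
  zero_mem' := ⟨0, 0, by simp⟩
  smul_mem' := by
    rintro c z ⟨x, y, h⟩
    exact ⟨c * x, c * y, by simp [h]; ring⟩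

noncomputable def im : K := ⟨Complex.I, by
  rw [mem_algebraicClosure_iff]
  refine ⟨Polynomial.X ^ 2 + 1, by
    simpa using Polynomial.X_pow_add_C_ne_zero (R := ℚ) two_pos 1, by simp⟩⟩

theorem mul_mem {a b c d e f : ℤ} (h1 : e ∣ a * c) (h2 : e ∣ b * d) (h3 : f ∣ a * d)
    (h4 : f ∣ b * c) {z w : K} (hz : z ∈ L a b) (hw : w ∈ L c d) : z * w ∈ L e f := by
  obtain ⟨x, y, h⟩ := hz
  obtain ⟨x', y', h'⟩ := hw
  obtain ⟨p, hp⟩ := h1
  obtain ⟨q, hq⟩ := h2
  obtain ⟨r, hr⟩ := h3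
  obtain ⟨s, hs⟩ := h4
  refine ⟨p * x * x' - q * y * y', r * x * y' + s * y * x', ?_⟩
  have hp' : (a : ℂ) * c = e * p := by exact_mod_cast hp
  have hq' : (b : ℂ) * d = e * q := by exact_mod_cast hq
  have hr' : (a : ℂ) * d = f * r := by exact_mod_cast hr
  have hs' : (b : ℂ) * c = f * s := by exact_mod_cast hs
  push_cast
  rw [h, h']
  linear_combination (x * x' : ℂ) * hp' - (y * y' : ℂ) * hq' + (x * y' * Complex.I) * hr' +
    (y * x' * Complex.I) * hs' + (b * d * y * y' : ℂ) * Complex.I_mul_I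

noncomputable def sig {n : ℕ} (p q i j : Fin n) : Submodule ℤ K :=
  if i = p ∧ j = q then L 1 2 else if i = q ∧ j = p then L 1 1 else L 2 2

noncomputable def tv {n : ℕ} {i j : Fin n} (h : i ≠ j) (a : K) : GL (Fin n) K :=
  ⟨Matrix.transvection i j a, Matrix.transvection i j (-a),
    by rw [Matrix.transvection_mul_transvection_same _ _ h]; simp,
    by rw [Matrix.transvection_mul_transvection_same _ _ h]; simp⟩

theorem result (n : ℕ) (hn : 2 ≤ n) : ∃ (K : Type) (_ : Field K) (_ : Algebra ℚ K),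
    Algebra.IsAlgebraic ℚ K ∧ ∃ σ : Fin n → Fin n → Submodule ℤ K,
      (∀ i j, i ≠ j → σ i j ≠ ⊥) ∧
      (∀ i r j, i ≠ r → r ≠ j → i ≠ j → ∀ a ∈ σ i r, ∀ b ∈ σ r j, a * b ∈ σ i j) ∧
      ∃ i j, i ≠ j ∧ ∃ a, a ∉ σ i j ∧
        ∃ g ∈ Subgroup.closure {t : GL (Fin n) K | ∃ k l, k ≠ l ∧ ∃ c ∈ σ k l,
          (t : Matrix (Fin n) (Fin n) K) = Matrix.transvection k l c},
          (g : Matrix (Fin n) (Fin n) K) = Matrix.transvection i j a := by
  obtain ⟨p, q, h⟩ : ∃ p q : Fin n, p ≠ q := ⟨⟨0, by omega⟩, ⟨1, by omega⟩, by simp⟩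
  refine ⟨K, inferInstance, inferInstance, algebraicClosure.isAlgebraic ℚ ℂ, sig p q, fun i j _ e => ?_,
    fun i r j h1 h2 h3 a ha b hb => ?_, p, q, h, -im, fun hm => ?_,
    tv h 1 * tv h.symm (-1) * tv h 1 * tv h.symm im * tv h (-1) * tv h.symm 1 * tv h (-1), ?_, ?_⟩
  · have : (2 : K) ∈ sig p q i j := by
      unfold sig
      split_ifs
      · exact ⟨2, 0, by simp; rfl⟩
      · exact ⟨2, 0, by simp; rfl⟩
      · exact ⟨1, 0, by simp; rfl⟩
    rw [e] at this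
    simp at this
  · unfold sig at *
    split_ifs at ha hb ⊢ <;> first
      | exact mul_mem (by decide) (by decide) (by decide) (by decide) ha hb
      | (exfalso; grind)
  · rw [sig, if_pos ⟨rfl, rfl⟩] at hm
    obtain ⟨x, y, e⟩ := hm
    have := congrArg Complex.im e
    simp [im] at this
    have h2 : (-1 : ℤ) = 2 * y := Int.cast_injective (α := ℝ) (by push_cast; exact this)
    omega
  · have a : ∀ x y : ℤ, ∀ z : K, (z : ℂ) = (1 : ℤ) * x + (2 : ℤ) * y * Complex.I →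
        tv h z ∈ Subgroup.closure {t : GL (Fin n) K | ∃ k l, k ≠ l ∧ ∃ c ∈ sig p q k l,
          (t : Matrix (Fin n) (Fin n) K) = Matrix.transvection k l c} := fun x y z e =>
      Subgroup.subset_closure ⟨p, q, h, z, by rw [sig, if_pos ⟨rfl, rfl⟩]; exact ⟨x, y, e⟩, rfl⟩
    have b : ∀ x y : ℤ, ∀ z : K, (z : ℂ) = (1 : ℤ) * x + (1 : ℤ) * y * Complex.I →
        tv h.symm z ∈ Subgroup.closure {t : GL (Fin n) K | ∃ k l, k ≠ l ∧ ∃ c ∈ sig p q k l,
          (t : Matrix (Fin n) (Fin n) K) = Matrix.transvection k l c} := fun x y z e =>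
      Subgroup.subset_closure ⟨q, p, h.symm, z, by
        rw [sig, if_neg fun e => h e.2, if_pos ⟨rfl, rfl⟩]; exact ⟨x, y, e⟩, rfl⟩
    refine Subgroup.mul_mem _ (Subgroup.mul_mem _ (Subgroup.mul_mem _ (Subgroup.mul_mem _ (Subgroup.mul_mem _ (Subgroup.mul_mem _ (a 1 0 _ ?_) (b (-1) 0 _ ?_))
      (a 1 0 _ ?_)) (b 0 1 _ ?_)) (a (-1) 0 _ ?_)) (b 1 0 _ ?_)) (a (-1) 0 _ ?_) <;> simp [im]
  · simp only [Units.val_mul, tv, Matrix.transvection, mul_add, add_mul, one_mul, mul_one, zero_mul,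
      add_zero, zero_add,
      Matrix.single_mul_single_same, Matrix.single_mul_single_of_ne _ _ _ _ h,
      Matrix.single_mul_single_of_ne _ _ _ _ h.symm]
    refine Matrix.ext fun i j => ?_
    simp only [Matrix.add_apply, Matrix.single_apply]
    split_ifs <;> first | ring1 | (exfalso; grind)

end Pool.Agent.Results.MP_9bf48e_al.NotClosed
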